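import Mathlib

/-! Functions of the greatest common divisor with `Q` and of the interval. -/

set_option autoImplicit false

namespace Pool.Agent.N788.Even

open Finset

/-- every residue class modulo `Q` is a unit times its greatest common divisor with `Q` -/
lemma unit_gcd (Q : ℕ) (hQ : 0 < Q) (d : ℤ) :
    ∃ n : ℤ, IsCoprime n (Q : ℤ) ∧ ∃ m : ℤ, n * (Int.gcd d Q : ℤ) = d + Q * m := by
  set g : ℕ := Int.gcd d Q with hg
  have hg0 : 0 < g := Int.gcd_pos_of_ne_zero_right _ (by exact_mod_cast hQ.ne')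
  obtain ⟨d', hd'⟩ : (g : ℤ) ∣ d := Int.gcd_dvd_left ..
  obtain ⟨Q', hQ'⟩ : g ∣ Q := by
    have h : (g : ℤ) ∣ (Q : ℤ) := Int.gcd_dvd_right ..
    exact_mod_cast h
  have hQ'0 : 0 < Q' := by
    rcases Nat.eq_zero_or_pos Q' with h | h
    · rw [h, mul_zero] at hQ'; omega
    · exact h
  have hcop : IsCoprime d' (Q' : ℤ) := by
    rw [Int.isCoprime_iff_gcd_eq_one]
    have h1 : Int.gcd (g * d') (g * Q') = g * Int.gcd d' Q' := by
      rw [Int.gcd_mul_left]; simp
    have h2 : Int.gcd d Q = g * Int.gcd d' Q' := by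
      rw [← h1, ← hd', hQ']; push_cast; rfl
    rw [← hg] at h2
    exact Nat.eq_of_mul_eq_mul_left hg0 (by rw [← h2, mul_one])
  have : NeZero Q := ⟨hQ.ne'⟩
  have : NeZero Q' := ⟨hQ'0.ne'⟩
  have hunit : IsUnit (d' : ZMod Q') := by
    rw [ZMod.coe_int_isUnit_iff_isCoprime]
    exact hcop.symm
  obtain ⟨u, hu⟩ := hunit
  have hdvd : Q' ∣ Q := Dvd.intro_left g hQ'.symm
  obtain ⟨v, hv⟩ := ZMod.unitsMap_surjective hdvd u
  refine ⟨(v : ZMod Q).val, ?_, ?_⟩
  · have h1 : IsUnit (((v : ZMod Q).val : ℤ) : ZMod Q) := by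
      have : (((v : ZMod Q).val : ℤ) : ZMod Q) = v := by
        push_cast
        exact ZMod.natCast_zmod_val _
      rw [this]
      exact v.isUnit
    rw [ZMod.coe_int_isUnit_iff_isCoprime] at h1
    exact h1.symm
  · have h1 : ((((v : ZMod Q).val : ℤ) : ZMod Q')) = (d' : ZMod Q') := by
      rw [← hu, ← hv, ZMod.unitsMap_val]
      push_cast
      rw [ZMod.cast_eq_val]
    have h2 : (Q' : ℤ) ∣ ((v : ZMod Q).val : ℤ) - d' := by
      have := (ZMod.intCast_eq_intCast_iff_dvd_sub d' ((v : ZMod Q).val : ℤ) Q').1 h1.symm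
      exact this
    obtain ⟨m, hm⟩ := h2
    refine ⟨m, ?_⟩
    have h3 : ((v : ZMod Q).val : ℤ) = d' + Q' * m := by linarith
    rw [h3]
    have h4 : (Q : ℤ) = g * Q' := by rw [hQ']; push_cast; ring
    rw [h4]
    have h5 : d = g * d' := hd'
    nlinarith [h5]

/-- Moebius inversion: a function of the greatest common divisor with `Q` -/
lemma gcd_inv (ψ : ℕ → ℂ) (hψ : ∀ g, ‖ψ g‖ ≤ 1) :
    ∃ c : ℕ → ℂ, (∀ h, 0 < h → ‖c h‖ ≤ h) ∧
      ∀ n : ℕ, 0 < n → ψ n = ∑ h ∈ n.divisors, c h := by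
  refine ⟨fun h => ∑ x ∈ h.divisorsAntidiagonal, (ArithmeticFunction.moebius x.1 : ℂ) * ψ x.2,
    fun h hh => ?_, ?_⟩
  · refine (norm_sum_le _ _).trans ?_
    calc ∑ x ∈ h.divisorsAntidiagonal, ‖(ArithmeticFunction.moebius x.1 : ℂ) * ψ x.2‖
        ≤ ∑ x ∈ h.divisorsAntidiagonal, (1 : ℝ) := by
          apply Finset.sum_le_sum
          intro x _
          rw [norm_mul]
          have h1 : ‖(ArithmeticFunction.moebius x.1 : ℂ)‖ ≤ 1 := by
            rw [Complex.norm_intCast]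
            exact_mod_cast ArithmeticFunction.abs_moebius_le_one (n := x.1)
          exact mul_le_one₀ h1 (norm_nonneg _) (hψ _)
      _ = (h.divisorsAntidiagonal.card : ℝ) := by simp
      _ = (h.divisors.card : ℝ) := by
          rw [← Nat.map_div_right_divisors, Finset.card_map]
      _ ≤ h := by exact_mod_cast Nat.card_divisors_le_self h
  · have h := (ArithmeticFunction.sum_eq_iff_sum_mul_moebius_eq (R := ℂ)
      (f := fun h => ∑ x ∈ h.divisorsAntidiagonal, (ArithmeticFunction.moebius x.1 : ℂ) * ψ x.2)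
      (g := ψ)).2 (fun n hn => rfl)
    intro n hn
    exact (h n hn).symm

/-- the intervals are differences of initial intervals -/
lemma init_eq (Q D : ℕ) (hQ : 0 < Q) (hD : 0 < D) (u : ℕ) (hu : u ≤ Q) :
    (Icc (1 : ℤ) D).filter (fun d : ℤ => (d - 1) * (Q : ℤ) / (D : ℤ) < (u : ℤ))
        = Icc (1 : ℤ) (((u * D + Q - 1) / Q : ℕ) : ℤ)
      ∧ (u * D + Q - 1) / Q ≤ D := by
  have hQ' : (0 : ℤ) < Q := by exact_mod_cast hQ
  have hD' : (0 : ℤ) < D := by exact_mod_cast hD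
  have hM : (u * D + Q - 1) / Q ≤ D := by
    have h1 : u * D ≤ Q * D := Nat.mul_le_mul_right _ hu
    rw [Nat.div_le_iff_le_mul_add_pred hQ]
    omega
  refine ⟨?_, hM⟩
  ext d
  rw [mem_filter, mem_Icc, mem_Icc]
  have hcast : (((u * D + Q - 1) / Q : ℕ) : ℤ) = ((u : ℤ) * D + Q - 1) / Q := by
    have h1 : 1 ≤ u * D + Q := by omega
    rw [Int.natCast_div]
    congr 1
    push_cast [Nat.cast_sub h1]
    ring
  rw [hcast]
  have h2 : d ≤ ((u : ℤ) * D + Q - 1) / Q ↔ (d - 1) * Q / D < u := by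
    rw [Int.le_ediv_iff_mul_le hQ', Int.ediv_lt_iff_lt_mul hD']
    constructor
    · intro h; nlinarith
    · intro h; nlinarith
  rw [h2]
  constructor
  · rintro ⟨⟨h3, _⟩, h5⟩; exact ⟨h3, h5⟩
  · rintro ⟨h3, h5⟩
    refine ⟨⟨h3, ?_⟩, h5⟩
    rw [← h2, ← hcast] at h5
    exact h5.trans (by exact_mod_cast hM)

/-- sums with a coefficient which depends on the interval and on the greatest common divisor -/
lemma cell_sum (Q D : ℕ) (hQ : 0 < Q) (hD : 0 < D) (c : ℤ → ℂ) (B : ℝ)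
    (hB : ∀ h ∈ Q.divisors, ∀ M ≤ D, ‖∑ d ∈ (Icc (1 : ℤ) M).filter (fun d => (h : ℤ) ∣ d), c d‖ ≤ B)
    (ψ : ℤ → ℕ → ℂ) (hψ : ∀ u g, ‖ψ u g‖ ≤ 1) :
    ‖∑ d ∈ Icc (1 : ℤ) D, ψ ((d - 1) * Q / D) (Int.gcd d Q) * c d‖ ≤ 2 * (Q : ℝ) ^ 3 * B := by
  classical
  choose cc hcc hinv using fun u => gcd_inv (ψ u) (hψ u)
  have hQ' : (0 : ℤ) < Q := by exact_mod_cast hQ
  have hD' : (0 : ℤ) < D := by exact_mod_cast hD
  have hB0 : 0 ≤ B := by
    have h1 := hB 1 (Nat.one_mem_divisors.2 hQ.ne') 0 (Nat.zero_le _)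
    exact (norm_nonneg _).trans h1
  -- sums over one interval
  set V : ℕ → ℕ → ℂ := fun h M => ∑ d ∈ (Icc (1 : ℤ) M).filter (fun d => (h : ℤ) ∣ d), c d with hV
  have hW : ∀ u ∈ range Q, ∀ h ∈ Q.divisors,
      ‖∑ d ∈ (Icc (1 : ℤ) D).filter (fun d : ℤ => (d - 1) * (Q : ℤ) / (D : ℤ) = (u : ℤ)),
        if (h : ℤ) ∣ d then c d else 0‖ ≤ 2 * B := by
    intro u hu h hh
    rw [mem_range] at hu
    obtain ⟨e1, m1⟩ := init_eq Q D hQ hD u hu.le
    obtain ⟨e2, m2⟩ := init_eq Q D hQ hD (u + 1) hu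
    have h1 : ∑ d ∈ (Icc (1 : ℤ) D).filter (fun d : ℤ => (d - 1) * (Q : ℤ) / (D : ℤ) = (u : ℤ)),
        (if (h : ℤ) ∣ d then c d else 0)
        = V h (((u + 1) * D + Q - 1) / Q) - V h ((u * D + Q - 1) / Q) := by
      rw [eq_sub_iff_add_eq, hV]
      simp only
      rw [← e1, ← e2, Finset.sum_filter (fun d => (h : ℤ) ∣ d),
        Finset.sum_filter (fun d => (h : ℤ) ∣ d), ← Finset.sum_union]
      · apply Finset.sum_congr _ fun _ _ => rfl
        ext d
        simp only [mem_union, mem_filter]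
        push_cast
        constructor
        · rintro (⟨h2, h3⟩ | ⟨h2, h3⟩)
          · exact ⟨h2, by omega⟩
          · exact ⟨h2, by omega⟩
        · rintro ⟨h2, h3⟩
          rcases lt_or_ge ((d - 1) * (Q : ℤ) / (D : ℤ)) (u : ℤ) with h4 | h4
          · exact Or.inr ⟨h2, h4⟩
          · exact Or.inl ⟨h2, by omega⟩
      · rw [Finset.disjoint_left]
        intro d h2 h3
        rw [mem_filter] at h2 h3
        omega
    rw [h1]
    have h2 := hB h hh _ m1
    have h3 := hB h hh _ m2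
    calc _ ≤ ‖V h (((u + 1) * D + Q - 1) / Q)‖ + ‖V h ((u * D + Q - 1) / Q)‖ := norm_sub_le _ _
      _ ≤ B + B := add_le_add h3 h2
      _ = 2 * B := by ring
  have hkey : ∑ d ∈ Icc (1 : ℤ) D, ψ ((d - 1) * Q / D) (Int.gcd d Q) * c d
      = ∑ u ∈ range Q, ∑ h ∈ Q.divisors, cc u h *
        ∑ d ∈ (Icc (1 : ℤ) D).filter (fun d : ℤ => (d - 1) * (Q : ℤ) / (D : ℤ) = (u : ℤ)),
          if (h : ℤ) ∣ d then c d else 0 := by
    rw [← Finset.sum_fiberwise_of_maps_to (s := Icc (1 : ℤ) D) (t := (range Q).image (fun u : ℕ => (u : ℤ)))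
      (g := fun d => (d - 1) * (Q : ℤ) / (D : ℤ))]
    · rw [Finset.sum_image (fun _ _ _ _ h => by exact_mod_cast h)]
      apply Finset.sum_congr rfl
      intro u _
      have h1 : ∀ d ∈ (Icc (1 : ℤ) D).filter (fun d : ℤ => (d - 1) * (Q : ℤ) / (D : ℤ) = (u : ℤ)),
          ψ ((d - 1) * Q / D) (Int.gcd d Q) * c d
            = ∑ h ∈ Q.divisors, cc u h * if (h : ℤ) ∣ d then c d else 0 := by
        intro d hd
        rw [mem_filter] at hd
        rw [hd.2, hinv u _ (Int.gcd_pos_of_ne_zero_right _ (by exact_mod_cast hQ.ne')),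
          Finset.sum_mul]
        have h2 : (Int.gcd d Q).divisors = Q.divisors.filter (fun h : ℕ => (h : ℤ) ∣ d) := by
          ext h
          rw [Nat.mem_divisors, mem_filter, Nat.mem_divisors]
          constructor
          · rintro ⟨h3, _⟩
            have h4 : (h : ℤ) ∣ (Int.gcd d Q : ℤ) := by exact_mod_cast h3
            refine ⟨⟨?_, hQ.ne'⟩, h4.trans (Int.gcd_dvd_left ..)⟩
            have h5 : (h : ℤ) ∣ (Q : ℤ) := h4.trans (Int.gcd_dvd_right ..)
            exact_mod_cast h5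
          · rintro ⟨⟨h3, _⟩, h4⟩
            have h5 : (h : ℤ) ∣ (Q : ℤ) := by exact_mod_cast h3
            have h6 : (h : ℤ) ∣ (Int.gcd d Q : ℤ) := Int.dvd_coe_gcd h4 h5
            refine ⟨by exact_mod_cast h6, ?_⟩
            exact (Int.gcd_pos_of_ne_zero_right _ (by exact_mod_cast hQ.ne')).ne'
        rw [h2, Finset.sum_filter]
        apply Finset.sum_congr rfl
        intro h _
        split_ifs <;> simp
      rw [Finset.sum_congr rfl h1, Finset.sum_comm]
      apply Finset.sum_congr rfl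
      intro h _
      rw [Finset.mul_sum]
    · intro d hd
      rw [mem_Icc] at hd
      rw [mem_image]
      have h1 : 0 ≤ (d - 1) * (Q : ℤ) / (D : ℤ) :=
        Int.ediv_nonneg (mul_nonneg (by omega) hQ'.le) hD'.le
      have h2 : (d - 1) * (Q : ℤ) / (D : ℤ) < Q := by
        rw [Int.ediv_lt_iff_lt_mul hD']
        nlinarith
      exact ⟨((d - 1) * (Q : ℤ) / (D : ℤ)).toNat, by rw [mem_range]; omega, by omega⟩
  rw [hkey]
  refine (norm_sum_le _ _).trans ?_
  calc ∑ u ∈ range Q, ‖∑ h ∈ Q.divisors, cc u h *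
        ∑ d ∈ (Icc (1 : ℤ) D).filter (fun d : ℤ => (d - 1) * (Q : ℤ) / (D : ℤ) = (u : ℤ)),
          if (h : ℤ) ∣ d then c d else 0‖
      ≤ ∑ u ∈ range Q, ∑ h ∈ Q.divisors, (Q : ℝ) * (2 * B) := by
        apply Finset.sum_le_sum
        intro u hu
        refine (norm_sum_le _ _).trans (Finset.sum_le_sum fun h hh => ?_)
        rw [norm_mul]
        have h1 : ‖cc u h‖ ≤ Q := by
          have h2 := hcc u h (Nat.pos_of_mem_divisors hh)
          have h3 : (h : ℝ) ≤ Q := by exact_mod_cast Nat.divisor_le hh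
          linarith
        exact mul_le_mul h1 (hW u hu h hh) (norm_nonneg _) (Nat.cast_nonneg _)
    _ = (Q : ℝ) * (Q.divisors.card * ((Q : ℝ) * (2 * B))) := by simp
    _ ≤ (Q : ℝ) * (Q * ((Q : ℝ) * (2 * B))) := by
        have h1 : (Q.divisors.card : ℝ) ≤ Q := by exact_mod_cast Nat.card_divisors_le_self Q
        gcongr
    _ = 2 * (Q : ℝ) ^ 3 * B := by ring

end Pool.Agent.N788.Even
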