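import Mathlib
import Pool.Agent.N781.S.IsoAll
import Pool.Agent.N788.MuDil2
import Pool.Agent.N788.Even.Cells

/-! Möbius correlations with an even number of exponents one along almost all dilates. -/

set_option autoImplicit false
set_option maxHeartbeats 4000000

namespace Pool.Agent.N788.Even

open Finset
open Pool.Agent.N781.A hiding fm
open Pool.Agent.N788.MuDil2 (fm fm_mult sm mu)

/-- the structure theorem -/
theorem struct (R k : ℕ) (hk : 0 < k) (a b : Fin k → ℤ) (e : Fin k → ℕ) (ha : ∀ i, a i ≠ 0)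
    (he : ∀ i, e i ≠ 0) (hev : Even (∑ i, e i)) (ε : ℝ) (hε : 0 < ε) :
    ∃ Q K : ℕ, 0 < Q ∧ ∀ D x : ℕ, K ≤ D → D ≤ R * x → ∃ s : ℤ → ℕ → ℂ,
      ∑ d ∈ Icc (1 : ℤ) D, ‖sm a b e x d - x * s ((d - 1) * Q / D) (Int.gcd d Q)‖ ≤ ε * (D * x) := by
  obtain ⟨Q, K, hQ, h⟩ := Pool.Agent.N781.S.isotypic_structure R k a b hk ha ε hε
  refine ⟨Q, K, hQ, fun D x hD hDx => ?_⟩
  obtain ⟨χ, s, h1, h2, h3, h4⟩ := h D x hD hDx (fun i => fm (e i)) (fun i => fm_mult (e i) (he i))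
  have hχ : χ = 1 := by
    apply h4
    intro p hp
    unfold fm
    rw [ArithmeticFunction.moebius_apply_prime hp]
    push_cast
    rw [Finset.prod_pow_eq_pow_sum, hev.neg_one_pow]
  refine ⟨fun u g => s u (g : ℤ), ?_⟩
  refine le_trans (le_of_eq ?_) h3
  apply Finset.sum_congr rfl
  intro d _
  have hper : ∀ (u r : ℤ) (m : ℤ), s u (r + Q * m) = s u r := by
    intro u r m
    induction m using Int.induction_on with
    | zero => simp
    | succ i ih => rw [← ih, ← h2 u (r + Q * i)]; congr 1; ring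
    | pred i ih => rw [← ih, ← h2 u (r + Q * (-i - 1))]; congr 1; ring
  have hs : s ((d - 1) * Q / D) ((Int.gcd d Q : ℕ) : ℤ) = s ((d - 1) * Q / D) d := by
    obtain ⟨n, hn, m, hm⟩ := unit_gcd Q hQ d
    have h5 := h1 ((d - 1) * Q / D) ((Int.gcd d Q : ℕ) : ℤ) n hn
    rw [hm, hper] at h5
    rw [h5, hχ]
    have h6 : IsUnit ((n : ℤ) : ZMod Q) := by
      rw [ZMod.coe_int_isUnit_iff_isCoprime]
      exact hn.symm
    rw [MulChar.one_apply h6, one_mul]
  have hsm : sm a b e x d = cs a b (fun i => fm (e i)) x d := rfl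
  simp only [hs, hsm]

lemma sm_norm {k : ℕ} (a b : Fin k → ℤ) (e : Fin k → ℕ) (x : ℕ) (d : ℤ) : ‖sm a b e x d‖ ≤ x := by
  unfold sm
  refine (norm_sum_le _ _).trans ?_
  calc _ ≤ ∑ n ∈ Icc (1 : ℤ) x, (1 : ℝ) := by
        apply Finset.sum_le_sum
        intro n _
        rw [norm_prod]
        apply Finset.prod_le_one (fun _ _ => norm_nonneg _)
        intro i _
        rw [norm_pow]
        apply pow_le_one₀ (norm_nonneg _)
        unfold mu
        rw [Complex.norm_intCast]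
        exact_mod_cast ArithmeticFunction.abs_moebius_le_one
    _ = x := by simp

/-- signed averages over the multiples of `q` control the absolute values -/
theorem signed (R k : ℕ) (hk : 0 < k) (a b : Fin k → ℤ) (e : Fin k → ℕ) (ha : ∀ i, a i ≠ 0)
    (he : ∀ i, e i ≠ 0) (hev : Even (∑ i, e i))
    (H : ∀ q : ℕ, 0 < q → ∀ ε : ℝ, 0 < ε → ∃ K : ℕ, ∀ D x : ℕ, K ≤ D → D ≤ R * x →
      ‖∑ d ∈ (Icc (1 : ℤ) D).filter (fun d => (q : ℤ) ∣ d), sm a b e x d‖ ≤ ε * (D * x))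
    (ε : ℝ) (hε : 0 < ε) :
    ∃ K : ℕ, ∀ D x : ℕ, K ≤ D → D ≤ R * x → ∑ d ∈ Icc (1 : ℤ) D, ‖sm a b e x d‖ ≤ ε * (D * x) := by
  classical
  obtain ⟨Q, K, hQ, hst⟩ := struct R k hk a b e ha he hev (ε / 3) (by positivity)
  have hQ' : (0 : ℝ) < Q := by exact_mod_cast hQ
  set ε₁ : ℝ := ε / (6 * (Q : ℝ) ^ 3) with hε₁
  have hε₁0 : 0 < ε₁ := by positivity
  choose KK hKK using fun q : ℕ => fun hq : 0 < q => H q hq ε₁ hε₁0
  -- one threshold for all divisors
  set K1 : ℕ := ∑ q ∈ Q.divisors, if hq : 0 < q then KK q hq else 0 with hK1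
  have hK1le : ∀ q ∈ Q.divisors, ∀ hq : 0 < q, KK q hq ≤ K1 := by
    intro q hq hq0
    have := Finset.single_le_sum (f := fun q => if hq : 0 < q then KK q hq else 0)
      (fun _ _ => Nat.zero_le _) hq
    simp only [dif_pos hq0] at this
    exact this
  obtain ⟨K2, hK2⟩ := exists_nat_ge ((K1 : ℝ) / ε₁)
  refine ⟨K + K1 + K2 + 1, fun D x hD hDx => ?_⟩
  have hD0 : 0 < D := by omega
  have hDr : (0 : ℝ) < D := by exact_mod_cast hD0
  have hx0 : 0 < x := by
    rcases Nat.eq_zero_or_pos x with h | h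
    · subst h; omega
    · exact h
  have hxr : (0 : ℝ) < x := by exact_mod_cast hx0
  obtain ⟨s, hs⟩ := hst D x (by omega) hDx
  -- bounds on initial intervals
  have hB : ∀ h ∈ Q.divisors, ∀ M ≤ D,
      ‖∑ d ∈ (Icc (1 : ℤ) M).filter (fun d => (h : ℤ) ∣ d), sm a b e x d‖ ≤ ε₁ * (D * x) := by
    intro h hh M hM
    have hh0 : 0 < h := Nat.pos_of_mem_divisors hh
    have hMr : (M : ℝ) ≤ D := by exact_mod_cast hM
    rcases le_or_gt (KK h hh0) M with h1 | h1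
    · refine (hKK h hh0 M x h1 (hM.trans hDx)).trans ?_
      gcongr
    · have h2 : M ≤ K1 := h1.le.trans (hK1le h hh hh0)
      calc _ ≤ ∑ d ∈ (Icc (1 : ℤ) M).filter (fun d => (h : ℤ) ∣ d), ‖sm a b e x d‖ := norm_sum_le _ _
        _ ≤ ∑ d ∈ (Icc (1 : ℤ) M), ‖sm a b e x d‖ :=
            Finset.sum_le_sum_of_subset_of_nonneg (Finset.filter_subset _ _)
              fun _ _ _ => norm_nonneg _
        _ ≤ ∑ d ∈ (Icc (1 : ℤ) M), (x : ℝ) := Finset.sum_le_sum fun d _ => sm_norm a b e x d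
        _ = M * x := by simp
        _ ≤ K1 * x := by gcongr
        _ ≤ (ε₁ * D) * x := by
            have h3 : (K1 : ℝ) / ε₁ ≤ D := hK2.trans (by exact_mod_cast (by omega : K2 ≤ D))
            rw [div_le_iff₀ hε₁0] at h3
            have h4 : (K1 : ℝ) ≤ ε₁ * D := by linarith
            gcongr
        _ = ε₁ * (D * x) := by ring
  -- phases
  set ψ : ℤ → ℕ → ℂ := fun u g => if s u g = 0 then 0 else (starRingEnd ℂ) (s u g) / ‖s u g‖ with hψ
  have hψ1 : ∀ u g, ‖ψ u g‖ ≤ 1 := by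
    intro u g
    rw [hψ]
    simp only
    split_ifs with h
    · simp
    · rw [norm_div, RCLike.norm_conj, Complex.norm_real, norm_norm, div_self (norm_ne_zero_iff.2 h)]
  have hψ2 : ∀ u g, ψ u g * s u g = ‖s u g‖ := by
    intro u g
    rw [hψ]
    simp only
    split_ifs with h
    · rw [h]; simp
    · have h1 : ((‖s u g‖ : ℝ) : ℂ) ≠ 0 := by exact_mod_cast norm_ne_zero_iff.2 h
      rw [div_mul_eq_mul_div, div_eq_iff h1, mul_comm, Complex.mul_conj, Complex.normSq_eq_norm_sq]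
      push_cast; ring
  have h1 := cell_sum Q D hQ hD0 (fun d => sm a b e x d) (ε₁ * (D * x)) hB ψ hψ1
  have h2 : ∑ d ∈ Icc (1 : ℤ) D, x * ‖s ((d - 1) * Q / D) (Int.gcd d Q)‖ ≤
      ε / 3 * (D * x) + 2 * (Q : ℝ) ^ 3 * (ε₁ * (D * x)) := by
    have h3 : ((∑ d ∈ Icc (1 : ℤ) D, x * ‖s ((d - 1) * Q / D) (Int.gcd d Q)‖ : ℝ) : ℂ) =
        ∑ d ∈ Icc (1 : ℤ) D, ψ ((d - 1) * Q / D) (Int.gcd d Q) * sm a b e x d
        - ∑ d ∈ Icc (1 : ℤ) D, ψ ((d - 1) * Q / D) (Int.gcd d Q) *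
          (sm a b e x d - x * s ((d - 1) * Q / D) (Int.gcd d Q)) := by
      rw [← Finset.sum_sub_distrib]
      push_cast
      apply Finset.sum_congr rfl
      intro d _
      rw [← hψ2]
      ring
    have h4 : 0 ≤ ∑ d ∈ Icc (1 : ℤ) D, x * ‖s ((d - 1) * Q / D) (Int.gcd d Q)‖ :=
      Finset.sum_nonneg fun _ _ => by positivity
    have h5 : ∑ d ∈ Icc (1 : ℤ) D, x * ‖s ((d - 1) * Q / D) (Int.gcd d Q)‖ =
        ‖((∑ d ∈ Icc (1 : ℤ) D, x * ‖s ((d - 1) * Q / D) (Int.gcd d Q)‖ : ℝ) : ℂ)‖ := by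
      rw [Complex.norm_real, Real.norm_eq_abs, abs_of_nonneg h4]
    rw [h5, h3]
    refine (norm_sub_le _ _).trans ?_
    rw [add_comm]
    refine add_le_add ?_ h1
    refine (norm_sum_le _ _).trans (le_trans ?_ hs)
    apply Finset.sum_le_sum
    intro d _
    rw [norm_mul]
    exact mul_le_of_le_one_left (norm_nonneg _) (hψ1 _ _)
  calc ∑ d ∈ Icc (1 : ℤ) D, ‖sm a b e x d‖
      ≤ ∑ d ∈ Icc (1 : ℤ) D, (‖sm a b e x d - x * s ((d - 1) * Q / D) (Int.gcd d Q)‖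
          + x * ‖s ((d - 1) * Q / D) (Int.gcd d Q)‖) := by
        apply Finset.sum_le_sum
        intro d _
        have h3 : ‖(x : ℂ) * s ((d - 1) * Q / D) (Int.gcd d Q)‖
            = x * ‖s ((d - 1) * Q / D) (Int.gcd d Q)‖ := by rw [norm_mul]; simp
        rw [← h3]
        have h4 := norm_add_le (sm a b e x d - x * s ((d - 1) * Q / D) (Int.gcd d Q))
          (x * s ((d - 1) * Q / D) (Int.gcd d Q))
        rw [sub_add_cancel] at h4
        exact h4
    _ ≤ ε / 3 * (D * x) + (ε / 3 * (D * x) + 2 * (Q : ℝ) ^ 3 * (ε₁ * (D * x))) := by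
        rw [Finset.sum_add_distrib]
        exact add_le_add hs h2
    _ = ε * (D * x) := by
        rw [hε₁]
        field_simp
        ring

end Pool.Agent.N788.Even
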