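import Mathlib
import Pool.Agent.N26.M.TWB
import Pool.Agent.N788.Even.MR
import Pool.Agent.N788.Even.Sq
import Pool.Agent.N788.MuDil2

/-! Exactly two factors with exponent one. -/

set_option autoImplicit false
set_option maxHeartbeats 4000000

namespace Pool.Agent.N788.Even

open Finset
open Pool.Agent.N675
open Pool.Agent.N788.MuDil2 (sm mu)

lemma box_one (D : ℕ) (f : ℤ → ℝ) :
    ∑ y ∈ Box (fun _ : Fin 1 => D), f (y 0) = ∑ d ∈ Icc (1 : ℤ) D, f d := by
  refine Finset.sum_bij (fun y _ => y 0) ?_ ?_ ?_ ?_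
  · intro y hy
    have := mem_Box.mp hy 0
    rw [mem_Icc]; exact this
  · intro y _ y' _ h
    funext i
    rw [Fin.fin_one_eq_zero i]; exact h
  · intro d hd
    rw [mem_Icc] at hd
    exact ⟨fun _ => d, mem_Box.mpr fun _ => hd, rfl⟩
  · intro y _
    rfl

/-- two forms, one function arbitrary -/
theorem two (a₀ b₀ a₁ b₁ : ℤ) (ha₀ : a₀ ≠ 0) (ha₁ : a₁ ≠ 0) (hne : a₀ * b₁ ≠ a₁ * b₀)
    (R : ℕ) (ε : ℝ) (hε : 0 < ε) :
    ∃ K : ℕ, ∀ D x : ℕ, K ≤ D → D ≤ R * x → ∀ F₀ : ℤ → ℂ, (∀ m, ‖F₀ m‖ ≤ 1) →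
      ∑ d ∈ Icc (1 : ℤ) D, ‖∑ n ∈ Icc (1 : ℤ) x, F₀ (a₀ * n + b₀ * d) * mu (a₁ * n + b₁ * d)‖
        ≤ ε * (D * x) := by
  obtain ⟨K, hK⟩ := Pool.Agent.N26.M.twb mu mu_norm mrmu (Fin 1) (Fin 2) ![a₀, a₁]
    (fun i _ => ![b₀, b₁] i) 0 1 (by
      intro i; fin_cases i
      · exact ha₀
      · exact ha₁) (by decide) (by
      intro i; fin_cases i
      · left; rfl
      · right; rfl) ⟨0, by
        simp only [Matrix.cons_val_zero, Matrix.cons_val_one]
        exact fun h => hne h.symm⟩ R (ε ^ 2) (by positivity)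
  refine ⟨(K + 1) * (R + 1), fun D x hD' hDx F₀ hF₀ => ?_⟩
  have hD : K + 1 ≤ D := le_trans (Nat.le_mul_of_pos_right _ (Nat.succ_pos R)) hD'
  have hx : K + 1 ≤ x := by
    by_contra hcon
    push Not at hcon
    have h1 : (K + 1) * (R + 1) ≤ R * x := hD'.trans hDx
    have h2 : R * x ≤ R * (K + 1) := Nat.mul_le_mul_left R hcon.le
    have h3 : (K + 1) * (R + 1) = R * (K + 1) + (K + 1) := by ring
    omega
  have hDr : (0 : ℝ) < D := by exact_mod_cast (by omega : 0 < D)
  have hxr : (0 : ℝ) < x := by exact_mod_cast (by omega : 0 < x)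
  have h1 := hK (fun _ => D) x (fun _ => by omega) (by omega) (fun _ => hDx)
    ![F₀, mu] (by
      intro i m; fin_cases i
      · exact hF₀ m
      · exact mu_norm m) rfl
  have h2 := Pool.Agent.N675.M.ER_first (fun _ : Fin 1 => D) _ hε.le h1
  have h3 : ∀ y : Fin 1 → ℤ, ‖Pool.Agent.N675.M.cc ![a₀, a₁] (fun i _ => ![b₀, b₁] i) ![F₀, mu] x y‖
      = ‖∑ n ∈ Icc (1 : ℤ) x, F₀ (a₀ * n + b₀ * y 0) * mu (a₁ * n + b₁ * y 0)‖ / x := by
    intro y
    unfold Pool.Agent.N675.M.cc Pool.Agent.N781.A.av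
    rw [norm_div, Complex.norm_natCast]
    congr 2
    apply Finset.sum_congr rfl
    intro n _
    beta_reduce
    rw [Fin.prod_univ_two]
    simp [LL]
  simp only [h3] at h2
  unfold Pool.Agent.N781.A.ER at h2
  rw [box_one D (fun d => ‖∑ n ∈ Icc (1 : ℤ) x, F₀ (a₀ * n + b₀ * d) * mu (a₁ * n + b₁ * d)‖ / x),
    ← Finset.sum_div, Fin.prod_univ_one, div_div, div_le_iff₀ (by positivity)] at h2
  calc _ ≤ ε * ((x : ℝ) * D) := h2
    _ = ε * (D * x) := by ring

/-- exactly two exponents one, all others zero or two -/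
theorem two_ones (R : ℕ) {k : ℕ} (a b : Fin k → ℤ) (e : Fin k → ℕ) (ha : ∀ i, a i ≠ 0)
    (i₀ i₁ : Fin k) (hi : i₀ ≠ i₁) (h0 : e i₀ = 1) (h1 : e i₁ = 1)
    (he : ∀ i, i ≠ i₀ → i ≠ i₁ → e i = 0 ∨ e i = 2) (hne : a i₀ * b i₁ ≠ a i₁ * b i₀)
    (ε : ℝ) (hε : 0 < ε) :
    ∃ K : ℕ, ∀ D x : ℕ, K ≤ D → D ≤ R * x → ∑ d ∈ Icc (1 : ℤ) D, ‖sm a b e x d‖ ≤ ε * (D * x) := by
  classical
  -- parameters
  obtain ⟨E0, hE0⟩ := exists_nat_ge (16 * (k : ℝ) / ε)
  set E : ℕ := E0 + 1 + ∑ i, (a i).natAbs with hEdef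
  set A : ℕ := ∑ i, ((a i).natAbs + (b i).natAbs * R) with hAdef
  set M : ℕ := (a i₀).natAbs * per E with hM
  have hM0 : 0 < M := Nat.mul_pos (Int.natAbs_pos.2 (ha i₀)) (per_pos E)
  have hMr : (0 : ℝ) < M := by exact_mod_cast hM0
  obtain ⟨K1, hK1⟩ := two (a i₀) (b i₀) (a i₁) (b i₁) (ha i₀) (ha i₁) hne R (ε / (2 * M))
    (by positivity)
  obtain ⟨X0, hX0⟩ := exists_nat_ge (16 * (k : ℝ) / ε + (16 * (k : ℝ) / ε) ^ 2 * A)
  refine ⟨(K1 + X0 + 1) * (R + 1), fun D x hD' hDx => ?_⟩
  have hD : K1 + X0 + 1 ≤ D := le_trans (Nat.le_mul_of_pos_right _ (Nat.succ_pos R)) hD'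
  have hx : K1 + X0 + 1 ≤ x := by
    by_contra hcon
    push Not at hcon
    have h1 : (K1 + X0 + 1) * (R + 1) ≤ R * x := hD'.trans hDx
    have h2 : R * x ≤ R * (K1 + X0 + 1) := Nat.mul_le_mul_left R hcon.le
    have h3 : (K1 + X0 + 1) * (R + 1) = R * (K1 + X0 + 1) + (K1 + X0 + 1) := by ring
    omega
  have hDr : (0 : ℝ) < D := by exact_mod_cast (by omega : 0 < D)
  have hxr : (0 : ℝ) < x := by exact_mod_cast (by omega : 0 < x)
  have hEr : (0 : ℝ) < E := by exact_mod_cast (by omega : 0 < E)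
  set S : Finset (Fin k) := univ.filter (fun i => (i ≠ i₀ ∧ i ≠ i₁) ∧ e i = 2) with hS
  -- the pointwise bound
  have hpt : ∀ d ∈ Icc (1 : ℤ) D, ‖sm a b e x d‖ ≤
      (∑ r ∈ range M, ‖∑ n ∈ Icc (1 : ℤ) x, Fc M r (a i₀ * n + b i₀ * d) * mu (a i₁ * n + b i₁ * d)‖)
        + 2 * k * (1 + x / E + Real.sqrt (A * x)) := by
    intro d hd
    rw [mem_Icc] at hd
    have hsplit : ∀ n : ℤ, ∏ i, mu (a i * n + b i * d) ^ (e i) =
        mu (a i₀ * n + b i₀ * d) * mu (a i₁ * n + b i₁ * d) * ∏ i ∈ S, mu (a i * n + b i * d) ^ 2 := by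
      intro n
      have hn1 : i₁ ∉ S := by rw [hS, mem_filter]; tauto
      have hn0 : i₀ ∉ insert i₁ S := by
        rw [mem_insert, hS, mem_filter]; tauto
      have hu : ∏ i, mu (a i * n + b i * d) ^ (e i) =
          ∏ i ∈ insert i₀ (insert i₁ S), mu (a i * n + b i * d) ^ (e i) := by
        symm
        apply Finset.prod_subset (Finset.subset_univ _)
        intro i _ hi'
        rw [mem_insert, mem_insert, hS, mem_filter] at hi'
        push Not at hi'
        rcases he i hi'.1 hi'.2.1 with h3 | h3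
        · rw [h3, pow_zero]
        · exact absurd h3 (hi'.2.2 (mem_univ i) ⟨hi'.1, hi'.2.1⟩)
      rw [hu, Finset.prod_insert hn0, Finset.prod_insert hn1, h0, h1, pow_one, pow_one, mul_assoc]
      congr 2
      apply Finset.prod_congr rfl
      intro i hi'
      rw [hS, mem_filter] at hi'
      rw [hi'.2.2]
    have h2 : sm a b e x d =
        (∑ n ∈ Icc (1 : ℤ) x, mu (a i₀ * n + b i₀ * d) * mu (a i₁ * n + b i₁ * d)
          * ∏ i ∈ S, phi E (a i * n + b i * d))
        + ∑ n ∈ Icc (1 : ℤ) x, mu (a i₀ * n + b i₀ * d) * mu (a i₁ * n + b i₁ * d)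
          * (∏ i ∈ S, mu (a i * n + b i * d) ^ 2 - ∏ i ∈ S, phi E (a i * n + b i * d)) := by
      unfold sm
      rw [← Finset.sum_add_distrib]
      apply Finset.sum_congr rfl
      intro n _
      rw [hsplit]; ring
    rw [h2]
    refine (norm_add_le _ _).trans (add_le_add ?_ ?_)
    · have h3 := per_sum (a i₀) (b i₀ * d) (a i₁) (b i₁ * d) (ha i₀) (per E) (per_pos E) x
        (fun n => ∏ i ∈ S, phi E (a i * n + b i * d)) (fun n => by
          rw [norm_prod]
          exact Finset.prod_le_one (fun _ _ => norm_nonneg _) fun i _ => phi_norm _ _)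
        (fun n n' hnn => by
          apply Finset.prod_congr rfl
          intro i _
          apply phi_per
          have : a i * n + b i * d - (a i * n' + b i * d) = a i * (n - n') := by ring
          rw [this]
          exact Dvd.dvd.mul_left hnn _)
      exact h3
    · calc _ ≤ ∑ n ∈ Icc (1 : ℤ) x, ∑ i ∈ S, 2 *
            (if mu (a i * n + b i * d) ^ 2 ≠ phi E (a i * n + b i * d) then (1 : ℝ) else 0) := by
            refine (norm_sum_le _ _).trans (Finset.sum_le_sum fun n _ => ?_)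
            rw [norm_mul, norm_mul]
            have h3 := prod_diff S (fun i => mu (a i * n + b i * d) ^ 2)
              (fun i => phi E (a i * n + b i * d)) (fun i => by
                rw [norm_pow]
                exact pow_le_one₀ (norm_nonneg _) (mu_norm _)) (fun i => phi_norm _ _)
            have h4 := mu_norm (a i₀ * n + b i₀ * d)
            have h5 := mu_norm (a i₁ * n + b i₁ * d)
            have h6 : ‖mu (a i₀ * n + b i₀ * d)‖ * ‖mu (a i₁ * n + b i₁ * d)‖ ≤ 1 :=
              mul_le_one₀ h4 (norm_nonneg _) h5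
            refine le_trans (mul_le_of_le_one_left (norm_nonneg _) h6) h3
        _ = ∑ i ∈ S, 2 * (((Icc (1 : ℤ) x).filter
              (fun n => mu (a i * n + b i * d) ^ 2 ≠ phi E (a i * n + b i * d))).card : ℝ) := by
            rw [Finset.sum_comm]
            apply Finset.sum_congr rfl
            intro i _
            rw [← Finset.mul_sum, Finset.card_filter]
            push_cast
            rfl
        _ ≤ ∑ i ∈ S, 2 * (1 + x / E + Real.sqrt (A * x)) := by
            apply Finset.sum_le_sum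
            intro i _
            have h3 := cnt_diff (a i) (b i * d) E x A (by omega) (ha i) (by
              have : (a i).natAbs ≤ ∑ i, (a i).natAbs :=
                Finset.single_le_sum (f := fun i => (a i).natAbs) (fun _ _ => Nat.zero_le _)
                  (mem_univ i)
              omega) (by
              intro n hn
              rw [mem_Icc] at hn
              have h4 : (a i).natAbs + (b i).natAbs * R ≤ A :=
                Finset.single_le_sum (f := fun i => (a i).natAbs + (b i).natAbs * R)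
                  (fun _ _ => Nat.zero_le _) (mem_univ i)
              have h5 : ((|a i| + |b i| * R : ℤ)) ≤ A := by
                have : (((a i).natAbs + (b i).natAbs * R : ℕ) : ℤ) ≤ (A : ℤ) := by exact_mod_cast h4
                push_cast at this
                exact this
              have h6 : |d| ≤ R * x := by
                rw [abs_of_nonneg (by omega)]
                exact hd.2.trans (by exact_mod_cast hDx)
              have h7 : |n| ≤ x := by rw [abs_of_nonneg (by omega)]; exact hn.2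
              calc |a i * n + b i * d| ≤ |a i * n| + |b i * d| := abs_add_le _ _
                _ = |a i| * |n| + |b i| * |d| := by rw [abs_mul, abs_mul]
                _ ≤ |a i| * x + |b i| * (R * x) := by gcongr
                _ = (|a i| + |b i| * R) * x := by ring
                _ ≤ A * x := by gcongr)
            linarith
        _ = S.card * (2 * (1 + x / E + Real.sqrt (A * x))) := by
            rw [Finset.sum_const, nsmul_eq_mul]
        _ ≤ (k : ℝ) * (2 * (1 + x / E + Real.sqrt (A * x))) := by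
            have h3 : (S.card : ℝ) ≤ k := by
              have := Finset.card_le_univ S
              rw [Fintype.card_fin] at this
              exact_mod_cast this
            gcongr
        _ = 2 * k * (1 + x / E + Real.sqrt (A * x)) := by ring
  -- summation
  have hmain : ∑ d ∈ Icc (1 : ℤ) D, ∑ r ∈ range M, ‖∑ n ∈ Icc (1 : ℤ) x,
      Fc M r (a i₀ * n + b i₀ * d) * mu (a i₁ * n + b i₁ * d)‖ ≤ ε / 2 * (D * x) := by
    rw [Finset.sum_comm]
    calc _ ≤ ∑ r ∈ range M, ε / (2 * M) * (D * x) := by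
          apply Finset.sum_le_sum
          intro r _
          exact hK1 D x (by omega) hDx (Fc M r) (Fc_norm M r)
      _ = ε / 2 * (D * x) := by
          rw [Finset.sum_const, card_range, nsmul_eq_mul]
          field_simp
  have herr : 2 * k * (1 + x / E + Real.sqrt (A * x)) ≤ ε / 2 * x := by
    have hX : 16 * (k : ℝ) / ε + (16 * (k : ℝ) / ε) ^ 2 * A ≤ x :=
      hX0.trans (by exact_mod_cast (by omega : X0 ≤ x))
    have e1 : 16 * (k : ℝ) / ε ≤ x := by
      have : (0 : ℝ) ≤ (16 * (k : ℝ) / ε) ^ 2 * A := by positivity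
      linarith
    have e2 : (16 * (k : ℝ) / ε) ^ 2 * A ≤ x := by
      have : (0 : ℝ) ≤ 16 * (k : ℝ) / ε := by positivity
      linarith
    have e3 : 16 * (k : ℝ) / ε ≤ E := hE0.trans (by exact_mod_cast (by omega : E0 ≤ E))
    have f1 : 16 * (k : ℝ) ≤ ε * x := by
      rw [div_le_iff₀ hε] at e1; linarith
    have f3 : 16 * (k : ℝ) ≤ ε * E := by
      rw [div_le_iff₀ hε] at e3; linarith
    have g3 : 16 * (k : ℝ) * (x / E) ≤ ε * x := by
      calc 16 * (k : ℝ) * (x / E) ≤ ε * E * (x / E) := by gcongr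
        _ = ε * x := by field_simp
    have g2 : 16 * (k : ℝ) * Real.sqrt (A * x) ≤ ε * x := by
      have h5 : (16 * (k : ℝ) * Real.sqrt (A * x)) ^ 2 ≤ (ε * x) ^ 2 := by
        rw [mul_pow, Real.sq_sqrt (by positivity)]
        have h6 : (16 * (k : ℝ)) ^ 2 * A ≤ ε ^ 2 * x := by
          rw [div_pow, div_mul_eq_mul_div, div_le_iff₀ (by positivity)] at e2
          linarith
        calc (16 * (k : ℝ)) ^ 2 * (A * x) = ((16 * (k : ℝ)) ^ 2 * A) * x := by ring
          _ ≤ (ε ^ 2 * x) * x := by gcongr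
          _ = (ε * x) ^ 2 := by ring
      exact (sq_le_sq₀ (by positivity) (by positivity)).1 h5
    nlinarith
  calc ∑ d ∈ Icc (1 : ℤ) D, ‖sm a b e x d‖
      ≤ ∑ d ∈ Icc (1 : ℤ) D, ((∑ r ∈ range M, ‖∑ n ∈ Icc (1 : ℤ) x,
        Fc M r (a i₀ * n + b i₀ * d) * mu (a i₁ * n + b i₁ * d)‖)
        + 2 * k * (1 + x / E + Real.sqrt (A * x))) := Finset.sum_le_sum hpt
    _ ≤ ε / 2 * (D * x) + D * (ε / 2 * x) := by
        rw [Finset.sum_add_distrib]
        refine add_le_add hmain ?_
        rw [Finset.sum_const, Int.card_Icc, nsmul_eq_mul]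
        have h5 : (((D : ℤ) + 1 - 1).toNat : ℝ) = D := by
          have : ((D : ℤ) + 1 - 1).toNat = D := by omega
          rw [this]
        rw [h5]
        gcongr
    _ = ε * (D * x) := by ring

end Pool.Agent.N788.Even
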