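import Mathlib
import Pool.Agent.N788.Even.Two
import Pool.Agent.N788.MuDil2

/-! Up to three factors: the distribution of the values. -/

set_option autoImplicit false
set_option maxHeartbeats 4000000

namespace Pool.Agent.N788.Even

open Finset
open Pool.Agent.N788.MuDil2 (sm mu cnt co cnt_eq co_norm main0 moebius_tri)

theorem all3 (R : ℕ) {k : ℕ} (hk : k ≤ 3) (a b : Fin k → ℤ) (ha : ∀ i, a i ≠ 0)
    (hne : ∀ i j, i ≠ j → a i * b j ≠ a j * b i) (e : Fin k → ℕ) (he : ∀ i, e i ≤ 2)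
    (h1 : ∃ i, e i = 1) (ε : ℝ) (hε : 0 < ε) :
    ∃ K : ℕ, ∀ D x : ℕ, K ≤ D → D ≤ R * x → ∑ d ∈ Icc (1 : ℤ) D, ‖sm a b e x d‖ ≤ ε * (D * x) := by
  classical
  set m := (univ.filter (fun i => e i = 1)).card with hm
  have hm1 : 1 ≤ m := by
    obtain ⟨i, hi⟩ := h1
    exact Finset.card_pos.2 ⟨i, by rw [mem_filter]; exact ⟨mem_univ _, hi⟩⟩
  have hm3 : m ≤ 3 := by
    have := Finset.card_le_univ (univ.filter (fun i => e i = 1))
    rw [Fintype.card_fin] at this
    omega
  by_cases hodd : Odd m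
  · exact main0 R a b e ha he hodd ε hε
  · have hm2 : m = 2 := by
      rw [Nat.not_odd_iff_even] at hodd
      obtain ⟨t, ht⟩ := hodd
      omega
    obtain ⟨i₀, i₁, hi, hset⟩ := Finset.card_eq_two.1 (hm ▸ hm2)
    have g0 : i₀ ∈ univ.filter (fun i => e i = 1) := by rw [hset]; simp
    have g1 : i₁ ∈ univ.filter (fun i => e i = 1) := by rw [hset]; simp
    rw [mem_filter] at g0 g1
    refine two_ones R a b e ha i₀ i₁ hi g0.2 g1.2 (fun i h0 h1 => ?_) (hne i₀ i₁ hi) ε hε
    have h2 : i ∉ univ.filter (fun i => e i = 1) := by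
      rw [hset, mem_insert, mem_singleton]; tauto
    rw [mem_filter] at h2
    have h3 : e i ≠ 1 := fun h => h2 ⟨mem_univ _, h⟩
    have := he i
    omega

/-- the number of the `n ≤ x` with a given pattern of squares -/
noncomputable def cntsq {k : ℕ} (a b : Fin k → ℤ) (s : Fin k → ℤ) (x : ℕ) (d : ℤ) : ℕ :=
  ((Icc (1 : ℤ) x).filter
    (fun n => ∀ i, ArithmeticFunction.moebius (a i * n + b i * d).natAbs ^ 2 = s i ^ 2)).card

/-- coefficients of the polynomial which is the indicator function of `s ^ 2` -/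
noncomputable def co2 (s : ℤ) (j : ℕ) : ℂ :=
  if s = 0 then (if j = 0 then 1 else if j = 2 then -1 else 0) else (if j = 2 then 1 else 0)

lemma co2_ind (s : ℤ) (hs : s = 0 ∨ s = 1 ∨ s = -1) (t : ℤ) (ht : t = 0 ∨ t = 1 ∨ t = -1) :
    (if t ^ 2 = s ^ 2 then (1 : ℂ) else 0) = ∑ j ∈ range 3, co2 s j * (t : ℂ) ^ j := by
  rw [Finset.sum_range_succ, Finset.sum_range_succ, Finset.sum_range_succ, Finset.sum_range_zero]
  rcases hs with rfl | rfl | rfl <;> rcases ht with rfl | rfl | rfl <;> norm_num [co2]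

lemma cntsq_eq {k : ℕ} (a b : Fin k → ℤ) (s : Fin k → ℤ) (hs : ∀ i, s i = 0 ∨ s i = 1 ∨ s i = -1)
    (x : ℕ) (d : ℤ) :
    (cntsq a b s x d : ℂ) = ∑ e ∈ Fintype.piFinset (fun _ : Fin k => range 3),
      (∏ i, co2 (s i) (e i)) * sm a b e x d := by
  classical
  unfold cntsq sm
  rw [Finset.card_filter]
  push_cast
  simp only [Finset.mul_sum]
  rw [Finset.sum_comm]
  apply Finset.sum_congr rfl
  intro n _
  have h1 : (if ∀ i, ArithmeticFunction.moebius (a i * n + b i * d).natAbs ^ 2 = s i ^ 2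
      then (1 : ℂ) else 0)
      = ∏ i, (if ArithmeticFunction.moebius (a i * n + b i * d).natAbs ^ 2 = s i ^ 2
        then (1 : ℂ) else 0) := by
    rw [Finset.prod_ite_zero]
    simp
  rw [h1]
  have h2 : ∀ i, (if ArithmeticFunction.moebius (a i * n + b i * d).natAbs ^ 2 = s i ^ 2
      then (1 : ℂ) else 0)
      = ∑ j ∈ range 3, co2 (s i) j * mu (a i * n + b i * d) ^ j := fun i =>
    co2_ind (s i) (hs i) _ (moebius_tri _)
  simp only [h2]
  rw [Finset.prod_univ_sum]
  apply Finset.sum_congr rfl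
  intro e _
  rw [Finset.prod_mul_distrib]

/-- the weight of a value -/
noncomputable def wt (s : ℤ) : ℂ := if s = 0 then 1 else 2

lemma wt_co (s : ℤ) (j : ℕ) (hj : j < 3) : wt s * co s j = co2 s j + (if j = 1 then (s : ℂ) else 0) := by
  unfold wt co co2
  by_cases h : s = 0
  · subst h
    interval_cases j <;> simp
  · rw [if_neg h, if_neg h, if_neg h]
    interval_cases j
    · simp
    · simp
      ring
    · simp

lemma co2_one (s : ℤ) : co2 s 1 = 0 := by
  unfold co2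
  split_ifs <;> simp_all

theorem patterns3 (R : ℕ) {k : ℕ} (hk : k ≤ 3) (a b : Fin k → ℤ) (ha : ∀ i, a i ≠ 0)
    (hne : ∀ i j, i ≠ j → a i * b j ≠ a j * b i) (ε : ℝ) (hε : 0 < ε) :
    ∃ K : ℕ, ∀ D x : ℕ, K ≤ D → D ≤ R * x → ∀ s : Fin k → ℤ, (∀ i, s i = 0 ∨ s i = 1 ∨ s i = -1) →
      ∑ d ∈ Icc (1 : ℤ) D, |(2 : ℝ) ^ (univ.filter (fun i => s i ≠ 0)).card * cnt a b s x d
        - cntsq a b s x d| ≤ ε * (D * x) := by
  classical
  set E := Fintype.piFinset (fun _ : Fin k => range 3) with hE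
  have hEm : ∀ e ∈ E, ∀ i, e i < 3 := fun e he i => mem_range.1 (Fintype.mem_piFinset.1 he i)
  have hK : ∀ e : Fin k → ℕ, ∃ K : ℕ, e ∈ E → (∃ i, e i = 1) → ∀ D x : ℕ, K ≤ D → D ≤ R * x →
      ∑ d ∈ Icc (1 : ℤ) D, ‖sm a b e x d‖ ≤ (ε / 3 ^ k) * (D * x) := by
    intro e
    by_cases he : e ∈ E
    · by_cases ho : ∃ i, e i = 1
      · obtain ⟨K, h⟩ := all3 R hk a b ha hne e (fun i => by have := hEm e he i; omega)
          ho (ε / 3 ^ k) (by positivity)
        exact ⟨K, fun _ _ => h⟩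
      · exact ⟨0, fun _ h => absurd h ho⟩
    · exact ⟨0, fun h => absurd h he⟩
  choose K hK using hK
  refine ⟨∑ e ∈ E, K e, fun D x hD hDx s hs => ?_⟩
  have hw : (∏ i, wt (s i)) = (2 : ℂ) ^ (univ.filter (fun i => s i ≠ 0)).card := by
    unfold wt
    rw [Finset.prod_ite, Finset.prod_const_one, one_mul, Finset.prod_const]
  have hdiff : ∀ d : ℤ, |(2 : ℝ) ^ (univ.filter (fun i => s i ≠ 0)).card * cnt a b s x d
        - cntsq a b s x d| ≤
      ∑ e ∈ E.filter (fun e => ∃ i, e i = 1), ‖sm a b e x d‖ := by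
    intro d
    have h1 : (((2 : ℝ) ^ (univ.filter (fun i => s i ≠ 0)).card * cnt a b s x d
        - cntsq a b s x d : ℝ) : ℂ) =
        ∑ e ∈ E, ((∏ i, (wt (s i) * co (s i) (e i))) - ∏ i, co2 (s i) (e i)) * sm a b e x d := by
      have h2 := cnt_eq a b s hs x d
      have h3 := cntsq_eq a b s hs x d
      push_cast
      rw [h2, h3, ← hw, Finset.mul_sum, ← Finset.sum_sub_distrib]
      apply Finset.sum_congr rfl
      intro e _
      rw [Finset.prod_mul_distrib]
      ring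
    have h5 : |(2 : ℝ) ^ (univ.filter (fun i => s i ≠ 0)).card * cnt a b s x d
        - cntsq a b s x d| = ‖(((2 : ℝ) ^ (univ.filter (fun i => s i ≠ 0)).card * cnt a b s x d
        - cntsq a b s x d : ℝ) : ℂ)‖ := by
      rw [Complex.norm_real, Real.norm_eq_abs]
    rw [h5, h1, Finset.sum_filter]
    refine (norm_sum_le _ _).trans (Finset.sum_le_sum fun e he => ?_)
    by_cases ho : ∃ i, e i = 1
    · rw [if_pos ho, norm_mul]
      obtain ⟨i, hi⟩ := ho
      have h6 : ∏ i, co2 (s i) (e i) = 0 :=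
        Finset.prod_eq_zero (mem_univ i) (by rw [hi, co2_one])
      rw [h6, sub_zero]
      have h7 : ‖∏ i, (wt (s i) * co (s i) (e i))‖ ≤ 1 := by
        rw [norm_prod]
        refine Finset.prod_le_one (fun _ _ => norm_nonneg _) fun i _ => ?_
        rw [wt_co _ _ (hEm e he i)]
        have h8 := hEm e he i
        unfold co2
        rcases hs i with h | h | h <;> rw [h] <;> interval_cases (e i) <;> norm_num
      exact mul_le_of_le_one_left (norm_nonneg _) h7
    · rw [if_neg ho]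
      push Not at ho
      have h6 : ∏ i, (wt (s i) * co (s i) (e i)) = ∏ i, co2 (s i) (e i) := by
        apply Finset.prod_congr rfl
        intro i _
        rw [wt_co _ _ (hEm e he i), if_neg (ho i), add_zero]
      rw [h6, sub_self, zero_mul, norm_zero]
  calc _ ≤ ∑ d ∈ Icc (1 : ℤ) D, ∑ e ∈ E.filter (fun e => ∃ i, e i = 1), ‖sm a b e x d‖ :=
        Finset.sum_le_sum fun d _ => hdiff d
    _ = ∑ e ∈ E.filter (fun e => ∃ i, e i = 1), ∑ d ∈ Icc (1 : ℤ) D, ‖sm a b e x d‖ :=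
        Finset.sum_comm
    _ ≤ ∑ e ∈ E.filter (fun e => ∃ i, e i = 1), ((ε / 3 ^ k) * (D * x)) := by
        apply Finset.sum_le_sum
        intro e he
        rw [mem_filter] at he
        exact hK e he.1 he.2 D x
          ((Finset.single_le_sum (f := K) (fun _ _ => Nat.zero_le _) he.1).trans hD) hDx
    _ ≤ ∑ _e ∈ E, ((ε / 3 ^ k) * (D * x)) :=
        Finset.sum_le_sum_of_subset_of_nonneg (Finset.filter_subset _ _)
          fun _ _ _ => by positivity
    _ = ε * (D * x) := by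
        rw [Finset.sum_const, hE, Fintype.card_piFinset]
        simp
        field_simp

end Pool.Agent.N788.Even
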