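import Mathlib
import Pool.Agent.N279.M.TW1
import Pool.Agent.N675.M.LamF
import Pool.Agent.N788.Even.Two

/-! Twists outside the major arcs, for every pattern of exponents. -/

set_option autoImplicit false
set_option maxHeartbeats 4000000

namespace Pool.Agent.N788.Even

open Finset
open Pool.Agent.N675
open Pool.Agent.N788.MuDil2 (fm fm_mult sm mu)

/-- the twisted sum -/
noncomputable def smt {k : ℕ} (a b : Fin k → ℤ) (e : Fin k → ℕ) (γ : ℝ) (x : ℕ) (d : ℤ) : ℂ :=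
  ∑ n ∈ Icc (1 : ℤ) x, eR (γ * n) * ∏ i, mu (a i * n + b i * d) ^ (e i)

theorem minor (R : ℕ) {k : ℕ} (a b : Fin k → ℤ) (e : Fin k → ℕ) (ha : ∀ i, a i ≠ 0)
    (he : ∀ i, e i ≠ 0) (ε : ℝ) (hε : 0 < ε) :
    ∃ Q K : ℕ, ∀ D x : ℕ, K ≤ D → D ≤ R * x → ∀ γ : ℝ,
      (∀ q : ℕ, 1 ≤ q → q ≤ Q → (Q : ℝ) / x < |(q : ℝ) * γ - round ((q : ℝ) * γ)|) →
      ∑ d ∈ Icc (1 : ℤ) D, ‖smt a b e γ x d‖ ≤ ε * (D * x) := by
  obtain ⟨T, Q, K, hK⟩ := Pool.Agent.N279.M.tw1 (Fin 1) (Fin k) a (fun i _ => b i) ha 0 (ε ^ 2)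
    (by positivity)
  refine ⟨Q, (K + 1) * (R + 1), fun D x hD' hDx γ hγ => ?_⟩
  have hD : K + 1 ≤ D := le_trans (Nat.le_mul_of_pos_right _ (Nat.succ_pos R)) hD'
  have hx : K + 1 ≤ x := by
    by_contra hcon
    push Not at hcon
    have h1 : (K + 1) * (R + 1) ≤ R * x := hD'.trans hDx
    have h2 : R * x ≤ R * (K + 1) := Nat.mul_le_mul_left R hcon.le
    have h3 : (K + 1) * (R + 1) = R * (K + 1) + (K + 1) := by ring
    omega
  have hDr : (0 : ℝ) < D := by exact_mod_cast (by omega : 0 < D)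
  have hxr : (0 : ℝ) < x := by exact_mod_cast (by omega : 0 < x)
  have h0 : Pool.Agent.N781.A.ER (fun _ : Fin 1 => D)
      (fun y => ‖Pool.Agent.N675.M.ccg a (fun i _ => b i) (fun i m => fm (e i) m.natAbs) γ x y‖ ^ 2)
        ≤ ε ^ 2 := by
    by_contra hcon
    push Not at hcon
    obtain ⟨q, h1, h2, h3⟩ := hK (fun _ => D) x (fun _ => by omega) (by omega)
      (fun i m => fm (e i) m.natAbs) (fun i p => fm (e i) p)
      (Pool.Agent.N781.FV.multAt (fun i => fm (e i)) (fun i => fm_mult (e i) (he i)) 0 T) γ hcon.le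
    exact absurd h3 (not_le.2 (hγ q h1 h2))
  have h2 := Pool.Agent.N675.M.ER_first (fun _ : Fin 1 => D) _ hε.le h0
  have h3 : ∀ y : Fin 1 → ℤ, ‖Pool.Agent.N675.M.ccg a (fun i _ => b i)
      (fun i m => fm (e i) m.natAbs) γ x y‖ = ‖smt a b e γ x (y 0)‖ / x := by
    intro y
    unfold Pool.Agent.N675.M.ccg Pool.Agent.N781.A.av
    rw [norm_div, Complex.norm_natCast]
    congr 2
    apply Finset.sum_congr rfl
    intro n _
    simp [LL, fm, mu]
  simp only [h3] at h2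
  unfold Pool.Agent.N781.A.ER at h2
  rw [box_one D (fun d => ‖smt a b e γ x d‖ / x),
    ← Finset.sum_div, Fin.prod_univ_one, div_div, div_le_iff₀ (by positivity)] at h2
  calc _ ≤ ε * ((x : ℝ) * D) := h2
    _ = ε * (D * x) := by ring

end Pool.Agent.N788.Even
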